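import Mathlib
import Pool.Agent.P8H9.UO.StmG

/-!
# Project UO (helper9), packages BIG and GRP: descent over the large primes and all levels
-/

set_option autoImplicit false

namespace Pool.Agent.P8H84.UO

open Pool.Agent.Q19.SU.Gen Pool.Agent.P8H9.UO

section
variable {G V : Type} [Group G] [AddCommGroup V] {ρ : G → V →+ V}

theorem RS.congr {m n : ℕ} {P Q : V} (hP : (n : ℤ) • P = 0) (hQ : (n : ℤ) • Q = 0)
    {a b c d a' b' c' d' : ℤ} (h : RS ρ m P Q a b c d) (ha : (n : ℤ) ∣ a - a')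
    (hb : (n : ℤ) ∣ b - b') (hc : (n : ℤ) ∣ c - c') (hd : (n : ℤ) ∣ d - d') :
    RS ρ m P Q a' b' c' d' := by
  obtain ⟨σ, hσ, h1, h2, h3⟩ := h
  refine ⟨σ, hσ, ?_, ?_, h3⟩
  · rw [h1, smul_congr hP ha, smul_congr hQ hc]
  · rw [h2, smul_congr hP hb, smul_congr hQ hd]

theorem AS.mono {N N' n m : ℕ} {P Q : V} (h : AS ρ N n m P Q) (hN : N ∣ N') :
    AS ρ N' n m P Q := by
  have hN' : (N : ℤ) ∣ (N' : ℤ) := Int.natCast_dvd_natCast.2 hN
  intro a b c d h0 h1 h2 h3 h4
  exact h a b c d h0 (hN'.trans h1) (hN'.trans h2) (hN'.trans h3) (hN'.trans h4)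

theorem AS.allN {N n m : ℕ} {P Q : V} (h : AS ρ N n m P Q) : AllN ρ N n m P Q := by
  intro a b c d h0 h1 h2 h3 h4
  obtain ⟨σ, _, h5, h6, h7⟩ := h a b c d h0 h1 h2 h3 h4
  exact ⟨σ, h5, h6, h7⟩

theorem as_one (hρ : Rep ρ) (N m : ℕ) : AS ρ N 1 m (0 : V) 0 := by
  intro a b c d _ _ _ _ _
  refine ⟨1, one_mem _, ?_, ?_, fun R _ => hρ.one R⟩ <;> simp

/-- all `e`-th powers act trivially on the elements killed by `n` -/
def Fx (ρ : G → V →+ V) (n e : ℕ) : Prop :=
  ∀ (σ : G) (R : V), (n : ℤ) • R = 0 → ρ (σ ^ e) R = R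

theorem fx_coprime {a b e f : ℕ} (hab : Nat.Coprime a b) (h1 : Fx ρ a e) (h2 : Fx ρ b f) :
    Fx ρ (a * b) (e * f) := by
  intro σ R hR
  obtain ⟨u, v, huv⟩ := (Nat.isCoprime_iff_coprime.2 hab : IsCoprime (a : ℤ) (b : ℤ))
  push_cast at hR
  have e1 : R = (v * b) • R + (u * a) • R := by
    rw [← add_smul]
    have : v * b + u * a = 1 := by linear_combination huv
    rw [this, one_smul]
  have h3 : ρ (σ ^ (e * f)) ((v * b) • R) = (v * b) • R := by
    rw [mul_comm e f, pow_mul]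
    apply h1
    have : (a : ℤ) • ((v * b) • R) = v • ((a * b : ℤ) • R) := by module
    rw [this, hR, smul_zero]
  have h4 : ρ (σ ^ (e * f)) ((u * a) • R) = (u * a) • R := by
    rw [pow_mul]
    apply h2
    have : (b : ℤ) • ((u * a) • R) = u • ((a * b : ℤ) • R) := by module
    rw [this, hR, smul_zero]
  conv_lhs => rw [e1]
  rw [map_add, h3, h4, ← e1]

/-- the product of the orders of `GL₂(𝔽_p)` over the primes `p` dividing `n` -/
def FF (n : ℕ) : ℕ := ∏ p ∈ n.primeFactors, ((p ^ 2 - 1) * (p ^ 2 - p))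

theorem fx_all (hρ : Rep ρ) (hKIL : S_KIL) (n : ℕ) (hn : 1 ≤ n) : Fx ρ n (FF n * n) := by
  induction n using Nat.recOnPosPrimePosCoprime with
  | zero => omega
  | one =>
    intro σ R hR
    rw [Nat.cast_one, one_smul] at hR
    rw [hR, map_zero]
  | prime_pow p k hp hk =>
    intro σ R hR
    have e1 : FF (p ^ k) = (p ^ 2 - 1) * (p ^ 2 - p) := by
      unfold FF
      rw [Nat.primeFactors_prime_pow (by omega) hp, Finset.prod_singleton]
    rw [e1]
    exact hKIL G V ρ hρ p k hp σ R (by push_cast at hR; exact hR)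
  | coprime a b ha hb hab iha ihb =>
    have e1 : FF (a * b) * (a * b) = (FF a * a) * (FF b * b) := by
      unfold FF
      rw [hab.primeFactors_mul, Finset.prod_union hab.disjoint_primeFactors]
      ring
    rw [e1]
    exact fx_coprime hab (iha (by omega)) (ihb (by omega))

end

theorem not_dvd_order {p q : ℕ} (hp : p.Prime) (hq : q.Prime) (hpq : p < q) (h5 : 5 ≤ q) :
    ¬ q ∣ (p ^ 2 - 1) * (p ^ 2 - p) := by
  have hp2 := hp.two_le
  have hpq1 : p + 1 < q := by
    rcases Nat.lt_or_ge (p + 1) q with h | h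
    · exact h
    · exfalso
      have h1 : q = p + 1 := by omega
      rcases hp.eq_two_or_odd' with h2 | h2
      · omega
      · rcases hq.eq_two_or_odd' with h3 | h3
        · omega
        · rw [h1] at h3
          obtain ⟨s, hs⟩ := h2
          obtain ⟨t, ht⟩ := h3
          omega
  have e1 : p ^ 2 - 1 = (p - 1) * (p + 1) := by
    obtain ⟨s, rfl⟩ : ∃ s, p = s + 1 := ⟨p - 1, by omega⟩
    have : (s + 1) ^ 2 = s * (s + 1 + 1) + 1 := by ring
    rw [this]
    simp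
  have e2 : p ^ 2 - p = (p - 1) * p := by
    obtain ⟨s, rfl⟩ : ∃ s, p = s + 1 := ⟨p - 1, by omega⟩
    have : (s + 1) ^ 2 = s * (s + 1) + (s + 1) := by ring
    rw [this]
    simp
  rw [e1, e2]
  have k1 : ¬ q ∣ p - 1 := fun h => by
    have := Nat.le_of_dvd (by omega) h
    omega
  have k2 : ¬ q ∣ p + 1 := fun h => by
    have := Nat.le_of_dvd (by omega) h
    omega
  have k3 : ¬ q ∣ p := fun h => by
    have := Nat.le_of_dvd (by omega) h
    omega
  intro h
  rcases hq.dvd_mul.1 h with h | h <;> rcases hq.dvd_mul.1 h with h | h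
  · exact k1 h
  · exact k2 h
  · exact k1 h
  · exact k3 h

theorem not_dvd_FF {n q : ℕ} (hq : q.Prime) (h5 : 5 ≤ q)
    (h : ∀ p : ℕ, p.Prime → p ∣ n → p < q) : ¬ q ∣ FF n := by
  intro hd
  obtain ⟨p, hp, hpd⟩ := (Prime.dvd_finsetProd_iff hq.prime _).1 hd
  have hp1 := Nat.prime_of_mem_primeFactors hp
  exact not_dvd_order hp1 hq (h p hp1 (Nat.dvd_of_mem_primeFactors hp)) h5 hpd

theorem big : S_BIG := by
  intro hDET hCMT hKIL hELE hCPR hSTP G V _ _ ρ hρ P₀ hP₀ hlarge n₂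
  induction n₂ using Nat.strong_induction_on with
  | _ n₂ ih =>
  intro n₁ hn₂ hn₁ hlt hgt
  by_cases h1 : n₂ = 1
  · subst h1
    exact ⟨0, 0, bas_one, as_one hρ 1 n₁⟩
  · obtain ⟨q, hqdef⟩ : ∃ q, q = n₂.minFac := ⟨_, rfl⟩
    have hq : q.Prime := hqdef ▸ Nat.minFac_prime h1
    have hqn : q ∣ n₂ := hqdef ▸ Nat.minFac_dvd n₂
    obtain ⟨k, n', hn', hfac⟩ := Nat.exists_eq_pow_mul_and_not_dvd (n := n₂) (by omega) q hq.ne_one
    have hk : 1 ≤ k := by
      rcases Nat.eq_zero_or_pos k with h | h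
      · subst h
        rw [pow_zero, one_mul] at hfac
        rw [hfac] at hqn
        exact absurd hqn hn'
      · exact h
    have hn'0 : 1 ≤ n' := by
      rcases Nat.eq_zero_or_pos n' with h | h
      · subst h
        exact absurd (dvd_zero q) hn'
      · exact h
    have hqk : 2 ≤ q ^ k := by
      calc 2 ≤ q := hq.two_le
        _ = q ^ 1 := (pow_one q).symm
        _ ≤ q ^ k := Nat.pow_le_pow_right hq.pos hk
    have hn'lt : n' < n₂ := by
      rw [hfac]
      nlinarith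
    have hn'd : n' ∣ n₂ := ⟨q ^ k, by rw [hfac, mul_comm]⟩
    have hqP : P₀ < q := hgt q hq hqn
    obtain ⟨P₂, Q₂, hB₂, hA₂⟩ := ih n' hn'lt (n₁ * q ^ k) hn'0
      (Nat.mul_pos hn₁ (by omega)) (by
        intro p q' hp hq' hpd hq'd
        rcases hp.dvd_mul.1 hpd with h | h
        · exact hlt p q' hp hq' h (hq'd.trans hn'd)
        · have hpq : p = q := (Nat.prime_dvd_prime_iff_eq hp hq).1 (hp.dvd_of_dvd_pow h)
          rw [hpq]
          have h2 : q ≤ q' := by
            rw [hqdef]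
            exact Nat.minFac_le_of_dvd hq'.two_le (hq'd.trans hn'd)
          rcases Nat.lt_or_eq_of_le h2 with h3 | h3
          · exact h3
          · rw [← h3] at hq'd
            exact absurd hq'd hn')
      (fun q' hq' hd => hgt q' hq' (hd.trans hn'd))
    obtain ⟨P, Q, hB, hAll⟩ := hlarge q hq hqP k
    have hC := (hCMT G V ρ hρ q k P Q hq hB).2 (by omega) hAll
    have hqn₁ : ∀ p : ℕ, p.Prime → p ∣ n₁ → p < q := fun p hp hd => hlt p q hp hq hd hqn
    have hcop1 : Nat.Coprime n₁ n' := by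
      rw [Nat.coprime_iff_gcd_eq_one]
      by_contra hne
      obtain ⟨p, hp, hpd⟩ := Nat.exists_prime_and_dvd hne
      have h3 := hlt p p hp hp (hpd.trans (Nat.gcd_dvd_left _ _))
        ((hpd.trans (Nat.gcd_dvd_right _ _)).trans hn'd)
      omega
    set e : ℕ := FF n₁ * n₁ with he
    have hS := hSTP hDET G V ρ hρ q k n₁ n' e P Q P₂ Q₂ hq hcop1 hn'0
      (fx_all hρ hKIL n₁ hn₁) hB₂ (by rw [mul_comm (q ^ k) n₁]; exact hA₂) hB
    have hqe : ¬ q ∣ e := by
      intro h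
      rcases hq.dvd_mul.1 h with h | h
      · exact not_dvd_FF hq (by omega) hqn₁ h
      · have := hqn₁ q hq h
        omega
    have hcop : Nat.Coprime e (q ^ k) := ((Nat.Prime.coprime_iff_not_dvd hq).2 hqe).symm.pow_right k
    obtain ⟨u, v, huv⟩ := (Nat.isCoprime_iff_coprime.2 hcop :
      IsCoprime (e : ℤ) ((q ^ k : ℕ) : ℤ))
    have key : ∀ x : ℤ, ((q ^ k : ℕ) : ℤ) ∣ (e : ℤ) * (u * x) - x := by
      intro x
      exact ⟨-(v * x), by linear_combination x * huv⟩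
    have hU : ∀ x : ℤ, RS ρ (n' * n₁) P Q 1 x 0 1 := by
      intro x
      rw [mul_comm n' n₁]
      exact RS.congr hB.hP hB.hQ (hS.1 (u * x) (hC (u * x)).1) (by simp) (key x) (by simp)
        (by simp)
    have hL : ∀ x : ℤ, RS ρ (n' * n₁) P Q 1 0 x 1 := by
      intro x
      rw [mul_comm n' n₁]
      exact RS.congr hB.hP hB.hQ (hS.2 (u * x) (hC (u * x)).2) (by simp) (by simp) (key x)
        (by simp)
    have hE := hELE G V ρ hρ q k 0 (n' * n₁) P Q hq hB (fun x _ => hU x) (fun x _ => hL x)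
    rw [Nat.mul_zero, pow_zero] at hE
    have hR := hCPR G V ρ hρ 1 (q ^ k) n' n₁ P Q P₂ Q₂ hB hB₂ hE
      (by rw [mul_comm (q ^ k) n₁]; exact hA₂)
    have hcop2 : Nat.Coprime (q ^ k) n' := ((Nat.Prime.coprime_iff_not_dvd hq).2 hn').pow_left k
    have hBB := Bas.coprime hcop2 hB hB₂
    rw [hfac]
    exact ⟨_, _, hBB, hR⟩

end Pool.Agent.P8H84.UO
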