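import Mathlib
import Pool.Agent.P8H84.UO.Big

/-!
# Project UO (helper9), package GRP: all levels
-/

set_option autoImplicit false

namespace Pool.Agent.P8H84.UO

open Pool.Agent.Q19.SU.Gen Pool.Agent.P8H9.UO

/-- small and large prime factors -/
theorem split (P₀ n : ℕ) (hn : 1 ≤ n) : ∃ n₁ n₂ : ℕ, n = n₁ * n₂ ∧ 1 ≤ n₁ ∧ 1 ≤ n₂ ∧
    (∀ p : ℕ, p.Prime → p ∣ n₁ → p ≤ P₀) ∧ (∀ p : ℕ, p.Prime → p ∣ n₂ → P₀ < p) := by
  induction n using Nat.strong_induction_on with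
  | _ n ih =>
  by_cases h1 : n = 1
  · subst h1
    refine ⟨1, 1, by norm_num, le_rfl, le_rfl, ?_, ?_⟩
    · intro p hp hd
      exact absurd hd hp.not_dvd_one
    · intro p hp hd
      exact absurd hd hp.not_dvd_one
  · obtain ⟨q, hqdef⟩ : ∃ q, q = n.minFac := ⟨_, rfl⟩
    have hq : q.Prime := hqdef ▸ Nat.minFac_prime h1
    have hqn : q ∣ n := hqdef ▸ Nat.minFac_dvd n
    obtain ⟨m, hm⟩ := hqn
    have hm0 : 1 ≤ m := by
      rcases Nat.eq_zero_or_pos m with h | h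
      · subst h
        omega
      · exact h
    have hq2 := hq.two_le
    obtain ⟨a, b, hab, ha, hb, h3, h4⟩ := ih m (by rw [hm]; nlinarith) hm0
    rcases Nat.lt_or_ge P₀ q with h | h
    · refine ⟨a, q * b, by rw [hm, hab]; ring, ha, Nat.mul_pos hq.pos hb, h3, ?_⟩
      intro p hp hd
      rcases hp.dvd_mul.1 hd with h5 | h5
      · rw [(Nat.prime_dvd_prime_iff_eq hp hq).1 h5]
        exact h
      · exact h4 p hp h5
    · refine ⟨q * a, b, by rw [hm, hab]; ring, Nat.mul_pos hq.pos ha, hb, ?_, h4⟩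
      intro p hp hd
      rcases hp.dvd_mul.1 hd with h5 | h5
      · rw [(Nat.prime_dvd_prime_iff_eq hp hq).1 h5]
        exact h
      · exact h3 p hp h5

/-- the product over all primes up to `P₀` -/
def WW (P₀ : ℕ) : ℕ := ∏ p ∈ (Finset.range (P₀ + 1)).filter Nat.Prime, ((p ^ 2 - 1) * (p ^ 2 - p))

theorem order_pos {p : ℕ} (hp : p.Prime) : 0 < (p ^ 2 - 1) * (p ^ 2 - p) := by
  have h2 := hp.two_le
  have h3 : p < p ^ 2 := by nlinarith
  exact Nat.mul_pos (by omega) (by omega)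

theorem WW_pos (P₀ : ℕ) : 0 < WW P₀ :=
  Finset.prod_pos fun _ hp => order_pos (Finset.mem_filter.1 hp).2

theorem FF_dvd_WW {P₀ n : ℕ} (h : ∀ p : ℕ, p.Prime → p ∣ n → p ≤ P₀) : FF n ∣ WW P₀ := by
  apply Finset.prod_dvd_prod_of_subset
  intro p hp
  have h1 := Nat.prime_of_mem_primeFactors hp
  have h2 := h p h1 (Nat.dvd_of_mem_primeFactors hp)
  rw [Finset.mem_filter, Finset.mem_range]
  exact ⟨by omega, h1⟩

theorem grp : S_GRP := by
  intro hDET hCMT hKIL hELE hCPR hSTP hBIG P₀ M h5 hM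
  set W : ℕ := WW P₀ with hW
  set M' : ℕ := 2 * M + 1 + W with hM'
  refine ⟨(P₀.factorial) ^ (2 * M'), Nat.one_le_iff_ne_zero.2 (pow_ne_zero _ (Nat.factorial_ne_zero _)), ?_⟩
  intro G V _ _ ρ hρ hlarge hsmall n hn
  set N : ℕ := (P₀.factorial) ^ (2 * M') with hN
  obtain ⟨n₁, n₂, hnn, hn₁, hn₂, hs, hl⟩ := split P₀ n hn
  obtain ⟨P₂, Q₂, hB₂, hA₂⟩ := hBIG hDET hCMT hKIL hELE hCPR hSTP G V ρ hρ P₀ h5 hlarge n₂ n₁ hn₂ hn₁
    (fun p q hp hq hpd hqd => lt_of_le_of_lt (hs p hp hpd) (hl q hq hqd)) hl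
  have main : ∀ m : ℕ, 1 ≤ m → ∀ m' : ℕ, n₁ = m * m' → Nat.Coprime m m' →
      ∃ P Q : V, Bas m P Q ∧ AS ρ N m (m' * n₂) P Q := by
    intro m hm
    induction m using Nat.recOnPosPrimePosCoprime with
    | zero => omega
    | one =>
      intro m' _ _
      exact ⟨0, 0, bas_one, as_one hρ N _⟩
    | prime_pow p k hp hk =>
      intro m₁ hfac hcop
      have hpd : p ∣ n₁ := by
        rw [hfac]
        exact (dvd_pow_self p (by omega)).mul_right _
      have hpP : p ≤ P₀ := hs p hp hpd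
      have hpm₁ : ¬ p ∣ m₁ := by
        intro h
        have h6 : p ∣ Nat.gcd (p ^ k) m₁ := Nat.dvd_gcd (dvd_pow_self p (by omega)) h
        rw [hcop] at h6
        exact hp.not_dvd_one h6
      have hm₁0 : 1 ≤ m₁ := by
        rcases Nat.eq_zero_or_pos m₁ with h | h
        · rw [h] at hpm₁
          exact absurd (dvd_zero p) hpm₁
        · exact h
      have hm₁d : m₁ ∣ n₁ := ⟨p ^ k, by rw [hfac, mul_comm]⟩
      obtain ⟨P, Q, hB, hAll⟩ := hsmall p hp hpP k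
      have hC := (hCMT G V ρ hρ p k P Q hp hB).1 M hM hAll
      have hcop1 : Nat.Coprime m₁ n₂ := by
        rw [Nat.coprime_iff_gcd_eq_one]
        by_contra hne
        obtain ⟨q, hq, hqd⟩ := Nat.exists_prime_and_dvd hne
        have h6 := hs q hq ((hqd.trans (Nat.gcd_dvd_left _ _)).trans hm₁d)
        have h7 := hl q hq (hqd.trans (Nat.gcd_dvd_right _ _))
        omega
      set e : ℕ := FF m₁ * m₁ with he
      have hS := hSTP hDET G V ρ hρ p k m₁ n₂ e P Q P₂ Q₂ hp hcop1 hn₂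
        (fx_all hρ hKIL m₁ hm₁0) hB₂ (by rw [← hfac]; exact hA₂) hB
      -- the exponent of `p` in `e`
      have hFW : FF m₁ ∣ W := FF_dvd_WW fun q hq hqd => hs q hq (hqd.trans hm₁d)
      have hW0 : 0 < W := WW_pos P₀
      have hF0 : FF m₁ ≠ 0 := fun h => by
        rw [h] at hFW
        have := Nat.eq_zero_of_zero_dvd hFW
        omega
      obtain ⟨w, f, hf, hwf⟩ := Nat.exists_eq_pow_mul_and_not_dvd hF0 p hp.ne_one
      have hwW : w ≤ W := by
        have h6 : p ^ w ∣ W := (Dvd.intro f hwf.symm).trans hFW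
        have h7 := Nat.le_of_dvd hW0 h6
        have h8 : w < p ^ w := Nat.lt_pow_self hp.one_lt
        omega
      set e₀ : ℕ := f * m₁ with he₀
      have hee : e = p ^ w * e₀ := by rw [he, hwf, he₀]; ring
      have hpe₀ : ¬ p ∣ e₀ := by
        intro h
        rcases hp.dvd_mul.1 h with h | h
        · exact hf h
        · exact hpm₁ h
      have hcop3 : Nat.Coprime e₀ (p ^ k) :=
        ((Nat.Prime.coprime_iff_not_dvd hp).2 hpe₀).symm.pow_right k
      obtain ⟨u, v, huv⟩ := (Nat.isCoprime_iff_coprime.2 hcop3 :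
        IsCoprime (e₀ : ℤ) ((p ^ k : ℕ) : ℤ))
      have key : ∀ x : ℤ, (p : ℤ) ^ M' ∣ x → ∃ x' : ℤ, (p : ℤ) ^ (2 * M + 1) ∣ x' ∧
          ((p ^ k : ℕ) : ℤ) ∣ (e : ℤ) * x' - x := by
        rintro x ⟨z, hz⟩
        refine ⟨u * ((p : ℤ) ^ (2 * M + 1) * (p : ℤ) ^ (W - w) * z),
          ⟨u * ((p : ℤ) ^ (W - w) * z), by ring⟩, ⟨-(v * x), ?_⟩⟩
        have h6 : (p : ℤ) ^ M' = (p : ℤ) ^ w * ((p : ℤ) ^ (2 * M + 1) * (p : ℤ) ^ (W - w)) := by
          rw [← pow_add, ← pow_add]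
          congr 1
          omega
        have h7 : (e : ℤ) = (p : ℤ) ^ w * e₀ := by rw [hee]; push_cast; ring
        rw [h7]
        have h8 : x = (p : ℤ) ^ w * ((p : ℤ) ^ (2 * M + 1) * (p : ℤ) ^ (W - w)) * z := by
          rw [hz, h6]
        have h9 : (p : ℤ) ^ w * e₀ * (u * ((p : ℤ) ^ (2 * M + 1) * (p : ℤ) ^ (W - w) * z)) =
            (u * e₀) * x := by rw [h8]; ring
        rw [h9]
        linear_combination x * huv
      have hU : ∀ x : ℤ, (p : ℤ) ^ M' ∣ x → RS ρ (m₁ * n₂) P Q 1 x 0 1 := by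
        intro x hx
        obtain ⟨x', h6, h7⟩ := key x hx
        exact RS.congr hB.hP hB.hQ (hS.1 x' (hC x' h6).1) (by simp) h7 (by simp) (by simp)
      have hL : ∀ x : ℤ, (p : ℤ) ^ M' ∣ x → RS ρ (m₁ * n₂) P Q 1 0 x 1 := by
        intro x hx
        obtain ⟨x', h6, h7⟩ := key x hx
        exact RS.congr hB.hP hB.hQ (hS.2 x' (hC x' h6).2) (by simp) (by simp) h7 (by simp)
      have hE := hELE G V ρ hρ p k M' (m₁ * n₂) P Q hp hB hU hL
      exact ⟨P, Q, hB, AS.mono hE (pow_dvd_pow_of_dvd (Nat.dvd_factorial hp.pos hpP) _)⟩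
    | coprime a b ha hb hab iha ihb =>
      intro m' hfac hcop
      have hca : Nat.Coprime a m' := Nat.Coprime.coprime_mul_right hcop
      have hcb : Nat.Coprime b m' := Nat.Coprime.coprime_mul_left hcop
      obtain ⟨P, Q, hB, hA⟩ := iha (by omega) (b * m') (by rw [hfac]; ring) (hab.mul_right hca)
      obtain ⟨P', Q', hB', hA'⟩ := ihb (by omega) (a * m') (by rw [hfac]; ring)
        (hab.symm.mul_right hcb)
      refine ⟨P + P', Q + Q', Bas.coprime hab hB hB', ?_⟩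
      exact hCPR G V ρ hρ N a b (m' * n₂) P Q P' Q' hB hB' (by rw [← mul_assoc]; exact hA)
        (by rw [← mul_assoc]; exact hA')
  obtain ⟨P, Q, hB, hA⟩ := main n₁ hn₁ 1 (by ring) (Nat.coprime_one_right n₁)
  have hcop : Nat.Coprime n₁ n₂ := by
    rw [Nat.coprime_iff_gcd_eq_one]
    by_contra hne
    obtain ⟨q, hq, hqd⟩ := Nat.exists_prime_and_dvd hne
    have h6 := hs q hq (hqd.trans (Nat.gcd_dvd_left _ _))
    have h7 := hl q hq (hqd.trans (Nat.gcd_dvd_right _ _))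
    omega
  have hR := hCPR G V ρ hρ N n₁ n₂ 1 P Q P₂ Q₂ hB hB₂ (by rw [mul_one]; rwa [one_mul] at hA)
    (by rw [mul_one]; exact AS.mono hA₂ (one_dvd N))
  rw [hnn]
  exact ⟨_, _, Bas.coprime hcop hB hB₂, AS.allN hR⟩

end Pool.Agent.P8H84.UO
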